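import Pool.Agent.Helper37.RG3.Goals

set_option autoImplicit false

/-!
# Packet CV1: from multigraphs with labelled edges to weights
-/

namespace Pool.Agent.Helper39.RG3

open Finset Pool.Agent.Helper37.RG3

theorem cv1 : CV1 := by
  classical
  intro V _ _ E _ ends r hl hdeg hcut
  have hwt : ∀ u v, wt ends u v = (univ.filter fun e => ends e = s(u, v)).card := by
    intro u v
    unfold wt
    congr
  refine ⟨⟨?_, ?_, fun _ _ _ => mem_univ _, ?_, ?_⟩, ?_⟩
  · intro u v
    rw [hwt, hwt, Sym2.eq_swap]
  · intro u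
    rw [hwt, Finset.card_eq_zero, Finset.filter_eq_empty_iff]
    intro e _ he
    apply hl e
    rw [he]
    exact rfl
  · intro x _
    have h1 : ∑ y, wt ends x y = (univ.filter fun e => x ∈ ends e).card := by
      simp_rw [hwt]
      rw [← Finset.card_biUnion]
      · congr 1
        ext e
        simp only [mem_biUnion, mem_filter, mem_univ, true_and]
        constructor
        · rintro ⟨y, hy⟩
          rw [hy]
          exact Sym2.mem_mk_left x y
        · intro h
          exact ⟨Sym2.Mem.other h, (Sym2.other_spec h).symm⟩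
      · intro y _ z _ hyz
        rw [Function.onFun, Finset.disjoint_left]
        intro e he he'
        simp only [mem_filter, mem_univ, true_and] at he he'
        rw [he, Sym2.congr_right] at he'
        exact hyz he'
    rw [h1, ← hdeg x, ← Set.ncard_coe_finset]
    congr 1
    ext e
    simp
  · intro X _ hX
    refine (hcut X hX).trans ?_
    have hsub : {e : E | ∃ u ∈ X, ∃ w ∉ X, ends e = s(u, w)} ⊆
        ((X.biUnion fun a => Xᶜ.biUnion fun b => univ.filter fun e => ends e = s(a, b) :
          Finset E) : Set E) := by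
      rintro e ⟨u, hu, w, hw, he⟩
      simp only [coe_biUnion, Set.mem_iUnion, mem_coe, mem_filter, mem_univ, true_and,
        mem_compl]
      exact ⟨u, hu, w, hw, he⟩
    refine (Set.ncard_le_ncard hsub (Finset.finite_toSet _)).trans ?_
    rw [Set.ncard_coe_finset]
    refine Finset.card_biUnion_le.trans ?_
    unfold ct bt
    refine Finset.sum_le_sum fun a _ => Finset.card_biUnion_le.trans ?_
    refine Finset.sum_le_sum fun b _ => ?_
    rw [hwt]
  · rintro ⟨σ, hσ1, hσ2⟩
    have hf : ∀ p : Sym2 V, ∃ f : {e // ends e = p} → Fin r, ¬ p.IsDiag →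
        (Function.Injective f ∧ ∀ e, ∀ u ∈ p, ∀ v ∈ p, u ≠ v → σ (f e) u = v) := by
      intro p
      by_cases hp : p.IsDiag
      · refine ⟨fun e => (hl e.1 (by rw [e.2]; exact hp)).elim, fun h => absurd hp h⟩
      induction p using Sym2.ind with
      | _ u v =>
        have huv : u ≠ v := fun h => hp (by rw [h]; exact rfl)
        have hcard : Fintype.card {e // ends e = s(u, v)} = Fintype.card {i // σ i u = v} := by
          rw [Fintype.card_subtype, Fintype.card_subtype, hσ2 u v huv, hwt]
        let g := Fintype.equivOfCardEq hcard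
        refine ⟨fun e => (g e).1, fun _ => ⟨?_, ?_⟩⟩
        · intro e e' h
          exact g.injective (Subtype.ext h)
        · intro e u' hu' v' hv' hne
          have h1 : σ (g e).1 u = v := (g e).2
          have h2 : σ (g e).1 v = u := (congrArg (σ (g e).1) h1).symm.trans (hσ1 _ _)
          rw [Sym2.mem_iff] at hu' hv'
          rcases hu' with rfl | rfl <;> rcases hv' with rfl | rfl
          · exact absurd rfl hne
          · exact h1
          · exact h2
          · exact absurd rfl hne
    choose f hf using hf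
    refine ⟨fun e => f (ends e) ⟨e, rfl⟩, ?_⟩
    rintro e₁ e₂ hne ⟨v, hv1, hv2⟩ hc
    have h1 := Sym2.other_spec hv1
    have h2 := Sym2.other_spec hv2
    set u₁ := Sym2.Mem.other hv1
    set u₂ := Sym2.Mem.other hv2
    have hne1 : v ≠ u₁ := fun h => hl e₁ (by rw [← h1, ← h]; exact rfl)
    have hne2 : v ≠ u₂ := fun h => hl e₂ (by rw [← h2, ← h]; exact rfl)
    have hm1 : u₁ ∈ ends e₁ := by rw [← h1]; exact Sym2.mem_mk_right _ _
    have hm2 : u₂ ∈ ends e₂ := by rw [← h2]; exact Sym2.mem_mk_right _ _
    have hs1 := (hf (ends e₁) (hl e₁)).2 ⟨e₁, rfl⟩ v hv1 u₁ hm1 hne1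
    have hs2 := (hf (ends e₂) (hl e₂)).2 ⟨e₂, rfl⟩ v hv2 u₂ hm2 hne2
    have hc' : f (ends e₁) ⟨e₁, rfl⟩ = f (ends e₂) ⟨e₂, rfl⟩ := hc
    rw [hc', hs2] at hs1
    have hends : ends e₁ = ends e₂ := by rw [← h1, ← h2, hs1]
    have key : ∀ (p : Sym2 V) (hp : ¬ p.IsDiag) (h₁ : ends e₁ = p) (h₂ : ends e₂ = p),
        f p ⟨e₁, h₁⟩ = f p ⟨e₂, h₂⟩ → False := by
      intro p hp h₁ h₂ h
      have := (hf p hp).1 h
      exact hne (congrArg Subtype.val this)
    have hgen : ∀ (p : Sym2 V) (h₁ : ends e₁ = p), f (ends e₁) ⟨e₁, rfl⟩ = f p ⟨e₁, h₁⟩ := by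
      intro p h₁
      subst h₁
      rfl
    exact key (ends e₂) (hl e₂) hends rfl ((hgen (ends e₂) hends).symm.trans hc')

end Pool.Agent.Helper39.RG3
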